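import Mathlib
import Pool.Agent.Lib_helper74.CUS.Final

/-!
The theorem on pairs `g`, `F` of helper74 (Lib_helper74.CUS) with the values of `g` restricted to the
residue class of `e₁` modulo `A`, for `e₁ e₂ > e₃`.
-/

namespace Pool.Agent.Lib_helper11.CUB2

open Pool.Agent.Lib_helper11.CUB (CM)
open Pool.Agent.Lib_helper74.CUS

theorem pts_pos {Q U0 V0 W N : ℤ} (hQ1 : 1 ≤ Q) (hκ1 : U0 ^ 2 + 1 ≤ Q * V0 ^ 2)
    (hns : ¬ IsSquare Q) (hW1 : 0 < W) (hN : 1 ≤ N) :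
    ∃ P : ℤ, 1 ≤ P ∧ ∀ x : ℤ, 1 ≤ x → ∃ t V c e : ℤ,
      t ^ 2 - Q * V ^ 2 = U0 ^ 2 - Q * V0 ^ 2 ∧ -t = U0 + 2 * W * c ∧ V = V0 + 2 * W * e ∧
      N * x ≤ t ∧ t ≤ P * x ∧ N * x ≤ |V| ∧ |V| ≤ P * x ∧ (0 < V0 → 0 < V) := by
  obtain ⟨a, ha⟩ : ∃ a : ℤ, a = |U0| := ⟨_, rfl⟩
  obtain ⟨b, hb⟩ : ∃ b : ℤ, b = |V0| := ⟨_, rfl⟩
  have ha0 : 0 ≤ a := by rw [ha]; exact abs_nonneg _
  have hV00 : V0 ≠ 0 := by
    rintro h0
    rw [h0] at hκ1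
    nlinarith [sq_nonneg U0]
  have hb1 : 1 ≤ b := by rw [hb]; exact Int.one_le_abs hV00
  have hκ2 : a ^ 2 + 1 ≤ Q * b ^ 2 := by rw [ha, hb, sq_abs, sq_abs]; exact hκ1
  have hUa : U0 ≤ a := by rw [ha]; exact le_abs_self _
  have hUa' : -a ≤ U0 := by rw [ha]; exact neg_abs_le _
  obtain ⟨σ, hσ1, hσ2, hσa⟩ : ∃ σ : ℤ, σ ^ 2 = 1 ∧ σ * V0 = -b ∧ |σ| = 1 := by
    rcases le_total 0 V0 with h0 | h0
    · exact ⟨-1, by norm_num, by rw [hb, abs_of_nonneg h0]; ring, by norm_num⟩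
    · exact ⟨1, by norm_num, by rw [hb, abs_of_nonpos h0]; ring, by norm_num⟩
  obtain ⟨Uc, hUc, hunits⟩ := Pool.Agent.Lib_helper3.CYC.units (d := Q) (W := W) (by linarith) hns hW1
  obtain ⟨G, hG⟩ : ∃ G : ℤ, G = 2 * (Q * b + a) := ⟨_, rfl⟩
  have hQb : 1 ≤ Q * b := omul hQ1 hb1
  have hG1 : 1 ≤ G := by rw [hG]; linarith
  have hQN : 1 ≤ Q * N := omul hQ1 hN
  have hGQN : 1 ≤ G * (Q * N) := omul hG1 hQN
  refine ⟨G * (Uc * (G * (Q * N))), omul hG1 (omul hUc hGQN), ?_⟩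
  intro x hx
  obtain ⟨X, Y, ⟨u1, u2, u3, u4, u5⟩, u6, u7⟩ := hunits (G * (Q * N) * x) (omul hGQN hx)
  have hQNx : 1 ≤ Q * N * x := omul hQN hx
  have hGX : G ≤ X := by
    have h3 : G * 1 ≤ G * (Q * N * x) := mul_le_mul_of_nonneg_left hQNx (by linarith)
    calc G = G * 1 := by ring
      _ ≤ G * (Q * N * x) := h3
      _ = G * (Q * N) * x := by ring
      _ ≤ X := u6
  obtain ⟨t, ht⟩ : ∃ t : ℤ, t = Q * b * Y - U0 * X := ⟨_, rfl⟩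
  obtain ⟨V, hV⟩ : ∃ V : ℤ, V = V0 * X + U0 * σ * Y := ⟨_, rfl⟩
  obtain ⟨l1, hYX⟩ := size_low hQ1 hb1 ha0 hUa hκ2 u1 u2 u3 (by rw [← hG]; exact hGX)
  rw [← hG, ← ht] at l1
  have tl : Q * N * x ≤ t := by
    have : G * (Q * N * x) ≤ G * t := by
      calc G * (Q * N * x) = G * (Q * N) * x := by ring
        _ ≤ X := u6
        _ ≤ G * t := l1
    exact le_of_mul_le_mul_left this (by linarith)
  have hX0 : 0 ≤ X := by linarith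
  have hQbX : Q * b * Y ≤ Q * b * X := mul_le_mul_of_nonneg_left hYX (by linarith)
  have haX : -(a * X) ≤ U0 * X := by
    have := mul_le_mul_of_nonneg_right hUa' hX0
    linarith
  have GXP : G * X ≤ G * (Uc * (G * (Q * N))) * x := by
    calc G * X ≤ G * (Uc * (G * (Q * N) * x)) := mul_le_mul_of_nonneg_left u7 (by linarith)
      _ = _ := by ring
  have tu : t ≤ G * (Uc * (G * (Q * N))) * x := by
    have h3 : t ≤ (Q * b + a) * X := by rw [ht]; linarith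
    have h4 : (Q * b + a) * X ≤ G * X := by
      apply mul_le_mul_of_nonneg_right _ hX0
      rw [hG]; linarith
    linarith
  have Vu : |V| ≤ G * (Uc * (G * (Q * N))) * x := by
    have h3 : |V| ≤ |V0 * X| + |U0 * σ * Y| := by rw [hV]; exact abs_add_le _ _
    rw [abs_mul, abs_mul, abs_mul, ← hb, ← ha, hσa, abs_of_nonneg hX0,
      abs_of_nonneg (show 0 ≤ Y by linarith)] at h3
    have h4 : a * 1 * Y ≤ a * X := by
      rw [mul_one]; exact mul_le_mul_of_nonneg_left hYX ha0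
    have h5 : (b + a) * X ≤ G * X := by
      apply mul_le_mul_of_nonneg_right _ hX0
      rw [hG]
      have : 1 * b ≤ Q * b := mul_le_mul_of_nonneg_right hQ1 (by linarith)
      linarith
    linarith
  have hUV : t ^ 2 - Q * V ^ 2 = U0 ^ 2 - Q * V0 ^ 2 := by
    rw [ht, hV]
    have e1 : (Q * b * Y - U0 * X) = -(U0 * X + Q * (σ * V0) * Y) := by rw [hσ2]; ring
    rw [e1]
    linear_combination (U0 ^ 2 - Q * V0 ^ 2) * u1 +
      (Q ^ 2 * V0 ^ 2 * Y ^ 2 - Q * U0 ^ 2 * Y ^ 2) * hσ1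
  have Vl : N * x ≤ |V| := by
    have h3 : t ^ 2 ≤ (Q * |V|) ^ 2 := by
      rw [mul_pow, sq_abs]
      have h4 : Q * V ^ 2 ≤ Q ^ 2 * V ^ 2 := by
        apply mul_le_mul_of_nonneg_right _ (sq_nonneg V)
        nlinarith
      linarith
    have h5 : t ≤ Q * |V| := by
      have h6 : 0 ≤ Q * |V| := by positivity
      exact (abs_le_of_sq_le_sq' h3 h6).2
    have h7 : Q * (N * x) ≤ Q * |V| := by
      calc Q * (N * x) = Q * N * x := by ring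
        _ ≤ t := tl
        _ ≤ _ := h5
    exact le_of_mul_le_mul_left h7 (by linarith)
  have tl' : N * x ≤ t := by
    have hNx : 0 ≤ N * x := mul_nonneg (by linarith) (by linarith)
    have : 1 * (N * x) ≤ Q * (N * x) := mul_le_mul_of_nonneg_right hQ1 hNx
    calc N * x ≤ Q * (N * x) := by linarith
      _ = Q * N * x := by ring
      _ ≤ t := tl
  obtain ⟨α, hα⟩ := u4
  obtain ⟨β, hβ⟩ := u5
  have Vpos : 0 < V0 → 0 < V := by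
    intro h0
    have hbV : b = V0 := by rw [hb, abs_of_pos h0]
    have k1 : (a * Y) ^ 2 < (b * X) ^ 2 := by
      have k2 : a ^ 2 * Y ^ 2 ≤ (Q * b ^ 2 - 1) * Y ^ 2 :=
        mul_le_mul_of_nonneg_right (by linarith) (sq_nonneg Y)
      have k3 : Q * Y ^ 2 = X ^ 2 - 1 := by linarith
      have k4 : Q * b ^ 2 * Y ^ 2 = b ^ 2 * (X ^ 2 - 1) := by rw [← k3]; ring
      have k5 : 0 < b ^ 2 := by positivity
      have k6 : 0 ≤ Y ^ 2 := sq_nonneg Y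
      rw [mul_pow, mul_pow]
      linarith
    have k7 : a * Y < b * X := lt_of_pow_lt_pow_left₀ 2 (by positivity) k1
    have k8 : -(a * Y) ≤ U0 * σ * Y := by
      have k9 : |U0 * σ * Y| = a * Y := by
        rw [abs_mul, abs_mul, hσa, ← ha, abs_of_nonneg (show 0 ≤ Y by linarith), mul_one]
      rw [← k9]; exact neg_abs_le _
    rw [hV, ← hbV]; linarith
  refine ⟨t, V, U0 * Q * α + Q * V0 * σ * β, V0 * Q * α + U0 * σ * β, hUV, ?_, ?_, tl', tu, Vl, Vu,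
    Vpos⟩
  · rw [ht]
    have e : Q * b * Y = -(Q * (σ * V0) * Y) := by rw [hσ2]; ring
    rw [e]
    linear_combination U0 * hα + (Q * σ * V0) * hβ
  · rw [hV]
    linear_combination V0 * hα + U0 * σ * hβ

theorem points_ap {e1 e2 e3 v ν w C A : ℤ} (hC : C = e1 * e2 - e3) (hCp : 0 < C)
    (hv : 1 ≤ v) (hν : 1 ≤ ν) (hw : v = ν * w) (hA : A ∣ w) (hm0 : 0 < 2 * e1 + C * w)
    (hκ : (v * (e1 ^ 2 - e2) - ν) ^ 2 + 4 * v ^ 2 * e1 * e3 < C ^ 2 * v ^ 2 * w)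
    (hns : ¬ IsSquare (v * ν)) :
    ∃ P : ℤ, 1 ≤ P ∧ ∀ x : ℤ, 1 ≤ x → ∃ s1 s2 s3 s4 J n : ℤ,
      F e1 e2 e3 v s1 * F e1 e2 e3 v s2 = (v * ν) ^ 3 * (g e1 e2 e3 s3 * g e1 e2 e3 s4) ∧
      F e1 e2 e3 v s1 * F e1 e2 e3 v J = (v ^ 2 * C) ^ 3 * g e1 e2 e3 n ∧
      (x ≤ s2 ∧ s2 ≤ P * x) ∧ (x ≤ s3 ∧ s3 ≤ P * x) ∧ (x ≤ -s4 ∧ -s4 ≤ P * x) ∧
      (x ≤ J ∧ J ≤ P * x) ∧ (x ≤ -n ∧ -n ≤ P * x ^ 2) ∧ A ∣ s3 - e1 ∧ A ∣ -s4 - e1 ∧
      A ∣ -n - e1 := by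
  have hC0 : C ≠ 0 := hCp.ne'
  obtain ⟨τ, hτ⟩ : ∃ τ : ℤ, τ = 1 := ⟨1, rfl⟩
  have hτC : C * τ = |C| := by rw [hτ, abs_of_pos hCp, mul_one]
  have hτ2 : τ * τ = 1 := by rw [hτ]; norm_num
  have hv0 : v ≠ 0 := by linarith
  obtain ⟨Q, hQ⟩ : ∃ Q : ℤ, Q = v * ν := ⟨_, rfl⟩
  obtain ⟨m, hm⟩ : ∃ m : ℤ, m = C * w := ⟨_, rfl⟩
  obtain ⟨S, hS⟩ : ∃ S : ℤ, S = v * (e1 ^ 2 - e2) - ν := ⟨_, rfl⟩
  obtain ⟨U0, hU0⟩ : ∃ U : ℤ, U = ν + v * (e1 ^ 2 + e2) := ⟨_, rfl⟩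
  obtain ⟨V0, hV0⟩ : ∃ V : ℤ, V = 2 * e1 + m := ⟨_, rfl⟩
  have hνm : ν * m = v * C := by rw [hm, hw]; ring
  have hQ1 : 1 ≤ Q := by rw [hQ]; exact omul hv hν
  rw [← hQ] at hns
  have hκe : U0 ^ 2 - Q * V0 ^ 2 = S ^ 2 + 4 * v ^ 2 * e1 * e3 - Q * m ^ 2 := by
    rw [hU0, hQ, hV0, hS]
    linear_combination (-4 * v * e1) * hνm + (-4 * v ^ 2 * e1) * hC
  have hQm : Q * m ^ 2 = C ^ 2 * v ^ 2 * w := by
    rw [hQ, hm]; rw [hw]; ring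
  have hκ1 : U0 ^ 2 + 1 ≤ Q * V0 ^ 2 := by
    rw [← hS] at hκ
    have : U0 ^ 2 - Q * V0 ^ 2 < 0 := by rw [hκe, hQm]; linarith
    linarith
  obtain ⟨W, hW⟩ : ∃ W : ℤ, W = v ^ 2 * |C| := ⟨_, rfl⟩
  have hCa : 1 ≤ |C| := Int.one_le_abs hC0
  have hW1 : 1 ≤ W := by
    rw [hW]; exact omul (by rw [pow_two]; exact omul hv hv) hCa
  obtain ⟨E, hE⟩ : ∃ E : ℤ, E = |v * (e1 ^ 2 - e2)| := ⟨_, rfl⟩
  obtain ⟨R, hR⟩ : ∃ R : ℤ, R = v ^ 2 * |e1 * e3| := ⟨_, rfl⟩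
  have hE0 : 0 ≤ E := by rw [hE]; exact abs_nonneg _
  have hR0 : 0 ≤ R := by rw [hR]; positivity
  have hSn := abs_nonneg S
  have hmn := abs_nonneg m
  obtain ⟨P, hP1, hpts⟩ := pts_pos (Q := Q) (U0 := U0) (V0 := V0) (W := W)
    (N := 2 * (|S| + |m| + E + W + R + 2)) hQ1 hκ1 hns (by linarith) (by linarith)
  obtain ⟨P2, hP2⟩ : ∃ P2 : ℤ, P2 = P + |S| + |m| + E + 1 := ⟨_, rfl⟩
  have hP21 : 1 ≤ P2 := by rw [hP2]; linarith
  have hP22 : P2 ≤ P2 ^ 2 + R := by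
    have : P2 * 1 ≤ P2 * P2 := mul_le_mul_of_nonneg_left hP21 (by linarith)
    linarith
  refine ⟨P2 ^ 2 + R, by linarith, ?_⟩
  intro x hx
  obtain ⟨t, V, c, e, hUV, htc, hVe, tl, tu, Vl, Vu, Vpos⟩ := hpts x hx
  have hx0 : 0 ≤ x := by linarith
  obtain ⟨k, hk⟩ : ∃ k : ℤ, k = τ * c := ⟨_, rfl⟩
  have hWC : W = v ^ 2 * (C * τ) := by rw [hW, hτC]
  obtain ⟨s1, hs1⟩ : ∃ s : ℤ, s = v * e1 ^ 2 + v ^ 2 * C * k := ⟨_, rfl⟩
  obtain ⟨s2, hs2⟩ : ∃ s : ℤ, s = S - s1 := ⟨_, rfl⟩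
  obtain ⟨s3, hs3⟩ : ∃ s : ℤ, s = e1 + m + W * e := ⟨_, rfl⟩
  obtain ⟨s4, hs4⟩ : ∃ s : ℤ, s = -e1 - W * e := ⟨_, rfl⟩
  have hs1' : 2 * s1 = S - t := by
    rw [hs1, hk, hS]
    linear_combination (-2 * c) * hWC - htc - hU0
  have hs2' : 2 * s2 = S + t := by rw [hs2]; linarith
  have hs3' : 2 * s3 = m + V := by
    rw [hs3]
    linear_combination -hVe - hV0
  have hs4' : 2 * s4 = m - V := by rw [hs4]; rw [hs3] at hs3'; linarith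
  have hrel : v * ν * (s3 * s4) = s1 * s2 + v ^ 2 * e1 * e3 := by
    have e4 : 4 * (v * ν * (s3 * s4)) = 4 * (s1 * s2 + v ^ 2 * e1 * e3) := by
      have i1 : 4 * (s3 * s4) = m ^ 2 - V ^ 2 := by
        calc 4 * (s3 * s4) = (2 * s3) * (2 * s4) := by ring
          _ = _ := by rw [hs3', hs4']; ring
      have i2 : 4 * (s1 * s2) = S ^ 2 - t ^ 2 := by
        calc 4 * (s1 * s2) = (2 * s1) * (2 * s2) := by ring
          _ = _ := by rw [hs1', hs2']; ring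
      rw [← hQ]
      linear_combination Q * i1 - i2 + hUV + hκe
    linarith
  have c1 := id_c (e1 := e1) (e2 := e2) (e3 := e3) (v := v) (ν := ν) (m := m) (s1 := s1) (s2 := s2)
    (s3 := s3) (s4 := s4) hv0 (by rw [hs2, ← hS]; ring) (by linarith) (by rw [← hC]; exact hνm) hrel
  obtain ⟨J, hJ⟩ : ∃ J : ℤ, J = -(v * e2) - v ^ 2 * C * k := ⟨_, rfl⟩
  obtain ⟨n, hn⟩ : ∃ n : ℤ, n = -e1 - v * k * (e1 ^ 2 + e2) - v ^ 2 * C * k ^ 2 := ⟨_, rfl⟩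
  have c2 := id_b e1 e2 e3 v k
  rw [← hC, ← hs1, ← hJ, ← hn] at c2
  have hJs : J = v * (e1 ^ 2 - e2) - s1 := by rw [hJ, hs1]; ring
  have hnn : v ^ 2 * C * n = s1 * J + v ^ 2 * e1 * e3 := by
    rw [hn, hs1, hJ, hC]; ring
  -- sizes
  have a1 := le_abs_self S
  have a2 := neg_abs_le S
  have a3 := le_abs_self m
  have a4 := neg_abs_le m
  have a5 := le_abs_self (v * (e1 ^ 2 - e2))
  have a6 := neg_abs_le (v * (e1 ^ 2 - e2))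
  rw [← hE] at a5 a6
  have up : ∀ z : ℤ, 0 ≤ z → z ≤ z * x := fun z hz => by
    have := mul_le_mul_of_nonneg_left hx hz
    linarith
  have Sx := up _ hSn
  have mx := up _ hmn
  have Ex := up _ hE0
  have Rx := up _ hR0
  have Px := up _ (show 0 ≤ P by linarith)
  have WRx : 0 ≤ W * x := mul_nonneg (by linarith) hx0
  have hNx : 2 * (|S| + |m| + E + W + R + 2) * x =
      2 * (|S| * x + |m| * x + E * x + W * x + R * x + 2 * x) := by ring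
  rw [hNx] at tl Vl
  have hP2x : P2 * x = P * x + |S| * x + |m| * x + E * x + x := by rw [hP2]; ring
  have hWR : (W + R + 1) * x = W * x + R * x + x := by ring
  have Rx0 : 0 ≤ R * x := mul_nonneg hR0 hx0
  have s2l : x ≤ s2 := by linarith
  have s2u : s2 ≤ P2 * x := by linarith
  have s1l : (W + R + 1) * x ≤ -s1 := by linarith
  have s1u : -s1 ≤ P2 * x := by linarith
  have Jl : (W + R + 1) * x ≤ J := by linarith
  have Ju : J ≤ P2 * x := by linarith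
  have wide : ∀ z : ℤ, z ≤ P2 * x → z ≤ (P2 ^ 2 + R) * x := fun z hz =>
    hz.trans (mul_le_mul_of_nonneg_right hP22 hx0)
  -- the size of `n`
  have a7 := le_abs_self (e1 * e3)
  have a8 := neg_abs_le (e1 * e3)
  have R1 : v ^ 2 * e1 * e3 ≤ R := by
    rw [hR]
    have := mul_le_mul_of_nonneg_left a7 (sq_nonneg v)
    linarith
  have R2 : -R ≤ v ^ 2 * e1 * e3 := by
    rw [hR]
    have := mul_le_mul_of_nonneg_left a8 (sq_nonneg v)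
    linarith
  have WR1 : 1 ≤ (W + R + 1) * x := omul (by linarith) hx
  have prodl : (W + R + 1) * x ≤ -(s1 * J) := by
    have i1 : ((W + R + 1) * x) * ((W + R + 1) * x) ≤ (-s1) * J :=
      mul_le_mul s1l Jl (by linarith) (by linarith)
    have i2 : ((W + R + 1) * x) * 1 ≤ ((W + R + 1) * x) * ((W + R + 1) * x) :=
      mul_le_mul_of_nonneg_left WR1 (by linarith)
    linarith
  have produ : -(s1 * J) ≤ P2 ^ 2 * x ^ 2 := by
    have i1 : (-s1) * J ≤ (P2 * x) * (P2 * x) := mul_le_mul s1u Ju (by linarith) (by positivity)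
    calc -(s1 * J) = (-s1) * J := by ring
      _ ≤ _ := i1
      _ = _ := by ring
  have eW : W * (-(τ * n)) = -(s1 * J) - v ^ 2 * e1 * e3 := by
    rw [hWC]
    linear_combination (-v ^ 2 * C * n) * hτ2 - hnn
  have nl0 : W * x ≤ W * (-(τ * n)) := by rw [eW]; linarith
  have nl : x ≤ -(τ * n) := le_of_mul_le_mul_left nl0 (by linarith)
  have nu : -(τ * n) ≤ (P2 ^ 2 + R) * x ^ 2 := by
    have i0 : 1 ≤ x ^ 2 := by rw [pow_two]; exact omul hx hx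
    have i1 : R * 1 ≤ R * x ^ 2 := mul_le_mul_of_nonneg_left i0 hR0
    have i2 : W * (-(τ * n)) ≤ (P2 ^ 2 + R) * x ^ 2 := by rw [eW]; linarith
    have i3 : 1 * (-(τ * n)) ≤ W * (-(τ * n)) := mul_le_mul_of_nonneg_right hW1 (by linarith)
    linarith
  have h0 : 0 ≤ V := (Vpos (by rw [hV0, hm]; exact hm0)).le
  rw [abs_of_nonneg h0] at Vl Vu
  rw [hτ, one_mul] at nl nu
  have hAv : A ∣ v := by rw [hw]; exact hA.mul_left ν
  have hAm : A ∣ m := by rw [hm]; exact hA.mul_left C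
  have hAW : A ∣ W := by
    rw [hW, pow_two]; exact (hAv.mul_right v).mul_right _
  refine ⟨s1, s2, s3, s4, J, n, c1, c2, ⟨s2l, wide _ s2u⟩,
    ⟨by linarith, wide _ (by linarith)⟩, ⟨by linarith, wide _ (by linarith)⟩,
    ⟨by linarith, wide _ Ju⟩, ⟨nl, nu⟩, ?_, ?_, ?_⟩
  · have e5 : s3 - e1 = m + W * e := by rw [hs3]; ring
    rw [e5]; exact dvd_add hAm (hAW.mul_right e)
  · have e5 : -s4 - e1 = W * e := by rw [hs4]; ring
    rw [e5]; exact hAW.mul_right e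
  · have e5 : -n - e1 = v * (k * (e1 ^ 2 + e2) + v * C * k ^ 2) := by rw [hn]; ring
    rw [e5]; exact hAv.mul_right _

/-- The values of `g` on the left. -/
theorem g_left_ap {e1 e2 e3 v x Z ε φ A : ℤ} (hg : ∀ n, g e1 e2 e3 n ≠ 0) (hv : 1 ≤ v) (hx : 1 ≤ x)
    {h : ℕ → ℤ} (hh : CM h)
    (h1 : ∀ n : ℤ, x ≤ n → n ≤ Z → A ∣ n - e1 → h (g e1 e2 e3 n).natAbs = ε)
    (h2 : ∀ n : ℤ, x ≤ n → n ≤ Z → F e1 e2 e3 v n ≠ 0 → h (F e1 e2 e3 v n).natAbs = φ)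
    {z : ℤ} (hz : x ≤ z) (hZ : v * z ^ 2 ≤ Z) (hzA : A ∣ z - e1) :
    h (g e1 e2 e3 (-z)).natAbs = φ * ε * h v.natAbs := by
  have hz1 : 1 ≤ z := hx.trans hz
  have hzz : z ≤ v * z ^ 2 := by
    have i1 : z * 1 ≤ z * z := mul_le_mul_of_nonneg_left hz1 (by linarith)
    have i2 : 1 * z ^ 2 ≤ v * z ^ 2 := mul_le_mul_of_nonneg_right hv (sq_nonneg z)
    linarith
  have k1 := h1 z hz (hzz.trans hZ) hzA
  have e := id_a e1 e2 e3 v z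
  have hv0 : v ≠ 0 := by linarith
  have n1 : v ^ 3 * (g e1 e2 e3 z * g e1 e2 e3 (-z)) ≠ 0 :=
    mul_ne_zero (pow_ne_zero _ hv0) (mul_ne_zero (hg _) (hg _))
  have k2 := h2 (v * z ^ 2) (hz.trans hzz) hZ (by rw [e]; exact neg_ne_zero.2 n1)
  rw [e, Int.natAbs_neg, hmul hh (pow_ne_zero _ hv0) (mul_ne_zero (hg _) (hg _)), hcube hh hv0,
    hmul hh (hg _) (hg _), k1] at k2
  have s1 := hsq hh hv0
  have s2 : ε * ε = 1 := by rw [← k1]; exact hsq hh (hg _)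
  rw [← k2]
  linear_combination (-(h (g e1 e2 e3 (-z)).natAbs) * ε * ε) * s1 - h (g e1 e2 e3 (-z)).natAbs * s2

theorem core_ap {e1 e2 e3 v ν w A : ℤ} (hg : ∀ n, g e1 e2 e3 n ≠ 0) (hv : 1 ≤ v) (hν : 1 ≤ ν)
    (hw : v = ν * w) (hA : A ∣ w) (hCp : 0 < e1 * e2 - e3)
    (hm0 : 0 < 2 * e1 + (e1 * e2 - e3) * w)
    (hκ : (v * (e1 ^ 2 - e2) - ν) ^ 2 + 4 * v ^ 2 * e1 * e3 < (e1 * e2 - e3) ^ 2 * v ^ 2 * w)
    (hns : ¬ IsSquare (v * ν)) :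
    ∃ K : ℤ, 1 ≤ K ∧ ∀ h : ℕ → ℤ, CM h → ∀ x Z : ℤ, 1 ≤ x → K * x ^ 4 ≤ Z → ∀ ε φ : ℤ,
      (∀ n : ℤ, x ≤ n → n ≤ Z → A ∣ n - e1 → h (g e1 e2 e3 n).natAbs = ε) →
      (∀ n : ℤ, x ≤ n → n ≤ Z → F e1 e2 e3 v n ≠ 0 → h (F e1 e2 e3 v n).natAbs = φ) →
      h (v * ν).natAbs = h (e1 * e2 - e3).natAbs * ε := by
  obtain ⟨C, hC⟩ : ∃ C : ℤ, C = e1 * e2 - e3 := ⟨_, rfl⟩
  rw [← hC] at hκ hCp hm0 ⊢
  have hC0 : C ≠ 0 := hCp.ne'
  have hv0 : v ≠ 0 := by linarith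
  obtain ⟨P, hP1, hpts⟩ := points_ap (A := A) hC hCp hv hν hw hA hm0 hκ hns
  obtain ⟨Q, hQ⟩ : ∃ Q : ℤ, Q = v * ν := ⟨_, rfl⟩
  have hQ0 : Q ≠ 0 := by rw [hQ]; exact mul_ne_zero hv0 (by linarith)
  have hP2 : 1 ≤ P ^ 2 := by rw [pow_two]; exact omul hP1 hP1
  refine ⟨v * P ^ 2, omul hv hP2, ?_⟩
  intro h hh x Z hx hZ ε φ h1 h2
  obtain ⟨s1, s2, s3, s4, J, n, c1, c2, ⟨b1, b2⟩, ⟨b3, b4⟩, ⟨b5, b6⟩, ⟨b7, b8⟩, ⟨b9, b10⟩,
    a3, a4, a5⟩ := hpts x hx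
  have hx0 : 0 ≤ x := by linarith
  have hx2 : x ≤ x ^ 2 := by
    have := mul_le_mul_of_nonneg_left hx hx0
    calc x = x * 1 := by ring
      _ ≤ x * x := this
      _ = x ^ 2 := by ring
  have hx4 : x ^ 2 ≤ x ^ 4 := by
    have h5 : 1 ≤ x ^ 2 := by linarith
    calc x ^ 2 = x ^ 2 * 1 := by ring
      _ ≤ x ^ 2 * x ^ 2 := mul_le_mul_of_nonneg_left h5 (sq_nonneg x)
      _ = x ^ 4 := by ring
  have hPP : P ≤ P ^ 2 := by
    calc P = P * 1 := by ring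
      _ ≤ P * P := mul_le_mul_of_nonneg_left hP1 (by linarith)
      _ = P ^ 2 := by ring
  have hPv : P ^ 2 ≤ v * P ^ 2 := by
    have := mul_le_mul_of_nonneg_right hv (sq_nonneg P)
    linarith
  have sq4 : ∀ z : ℤ, 0 ≤ z → z ≤ P * x ^ 2 → v * z ^ 2 ≤ Z ∧ z ≤ Z := by
    intro z hz0 hz
    have i1 : z ^ 2 ≤ (P * x ^ 2) ^ 2 := pow_le_pow_left₀ hz0 hz 2
    constructor
    · refine le_trans ?_ hZ
      calc v * z ^ 2 ≤ v * (P * x ^ 2) ^ 2 := mul_le_mul_of_nonneg_left i1 (by linarith)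
        _ = _ := by ring
    · refine le_trans ?_ hZ
      calc z ≤ P * x ^ 2 := hz
        _ ≤ v * P ^ 2 * x ^ 4 := mul_le_mul (by linarith) hx4 (sq_nonneg x) (by positivity)
  have lin : ∀ z : ℤ, z ≤ P * x → z ≤ P * x ^ 2 := fun z hz =>
    hz.trans (mul_le_mul_of_nonneg_left hx2 (by linarith))
  have g3 : h (g e1 e2 e3 s3).natAbs = ε := h1 s3 b3 (sq4 s3 (by linarith) (lin _ b4)).2 a3
  have g4 : h (g e1 e2 e3 s4).natAbs = φ * ε * h v.natAbs := by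
    have := g_left_ap hg hv hx hh h1 h2 (z := -s4) b5 (sq4 (-s4) (by linarith) (lin _ b6)).1 a4
    rwa [neg_neg] at this
  rw [← hQ] at c1
  have n1 : F e1 e2 e3 v s1 * F e1 e2 e3 v s2 ≠ 0 := by
    rw [c1]
    exact mul_ne_zero (pow_ne_zero _ hQ0) (mul_ne_zero (hg _) (hg _))
  have Fs1 : F e1 e2 e3 v s1 ≠ 0 := left_ne_zero_of_mul n1
  have Fs2 : F e1 e2 e3 v s2 ≠ 0 := right_ne_zero_of_mul n1
  have f2 : h (F e1 e2 e3 v s2).natAbs = φ := h2 s2 b1 (sq4 s2 (by linarith) (lin _ b2)).2 Fs2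
  have r1 : h (F e1 e2 e3 v s1).natAbs * φ = h Q.natAbs * (ε * (φ * ε * h v.natAbs)) := by
    have := congrArg (fun z : ℤ => h z.natAbs) c1
    rwa [hmul hh Fs1 Fs2, hmul hh (pow_ne_zero _ hQ0) (mul_ne_zero (hg _) (hg _)), hcube hh hQ0,
      hmul hh (hg _) (hg _), g3, g4, f2] at this
  have hvC : v ^ 2 * C ≠ 0 := mul_ne_zero (pow_ne_zero _ hv0) hC0
  have n2 : F e1 e2 e3 v s1 * F e1 e2 e3 v J ≠ 0 := by
    rw [c2]
    exact mul_ne_zero (pow_ne_zero _ hvC) (hg _)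
  have FJ : F e1 e2 e3 v J ≠ 0 := right_ne_zero_of_mul n2
  have fJ : h (F e1 e2 e3 v J).natAbs = φ := h2 J b7 (sq4 J (by linarith) (lin _ b8)).2 FJ
  have r2 : h (F e1 e2 e3 v s1).natAbs * φ = h C.natAbs * h (g e1 e2 e3 n).natAbs := by
    have := congrArg (fun z : ℤ => h z.natAbs) c2
    rwa [hmul hh Fs1 FJ, hmul hh (pow_ne_zero _ hvC) (hg _), hcube hh hvC,
      hmul hh (pow_ne_zero _ hv0) hC0, hsquare hh hv0, one_mul, fJ] at this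
  have r3 : h (g e1 e2 e3 n).natAbs = φ * ε * h v.natAbs := by
    have h6 := g_left_ap hg hv hx hh h1 h2 (z := -n) b9 (sq4 (-n) (by linarith) b10).1 a5
    rwa [neg_neg] at h6
  rw [r3] at r2
  rw [r1] at r2
  have q1 : ε * ε = 1 := by rw [← g3]; exact hsq hh (hg _)
  have q2 : φ * φ = 1 := by rw [← f2]; exact hsq hh Fs2
  have q3 := hsq hh hv0
  rw [← hQ]
  have e1 : h Q.natAbs * (φ * h v.natAbs) = h C.natAbs * ε * (φ * h v.natAbs) := by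
    linear_combination r2 - (h Q.natAbs * φ * h v.natAbs) * q1
  have e2 : (φ * h v.natAbs) * (φ * h v.natAbs) = 1 := by
    linear_combination (φ * φ) * q3 + q2
  calc h Q.natAbs = h Q.natAbs * (φ * h v.natAbs) * (φ * h v.natAbs) := by
        rw [mul_assoc, e2, mul_one]
    _ = h C.natAbs * ε * (φ * h v.natAbs) * (φ * h v.natAbs) := by rw [e1]
    _ = _ := by rw [mul_assoc, e2, mul_one]

theorem choose_w' {p q : ℕ} (hp : p.Prime) (hq : q.Prime) (hne : p ≠ q) {w : ℕ} (hw : 1 ≤ w) :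
    ∃ w1 t : ℕ, w ∣ w1 ∧ 1 ≤ w1 ∧ 1 ≤ t ∧ w1 * p * t = p * q * w ∧ ¬ IsSquare w1 ∧
      ¬ IsSquare (w1 * p) := by
  by_cases h1 : IsSquare w
  · refine ⟨w * q, 1, dvd_mul_right _ _, Nat.mul_pos hw hq.pos, le_rfl, by ring, ?_, ?_⟩
    · intro h2; exact not_sq_prime hq (sq_mul_cancel hw h1 h2)
    · intro h2
      rw [mul_assoc] at h2
      exact not_sq_prod hq hp hne.symm (sq_mul_cancel hw h1 h2)
  · by_cases h3 : IsSquare (w * p)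
    · refine ⟨w * q, 1, dvd_mul_right _ _, Nat.mul_pos hw hq.pos, le_rfl, by ring, ?_, ?_⟩
      · intro h2
        have h4 : IsSquare (w ^ 2 * (p * q)) := by
          have := h3.mul h2
          have e : w * p * (w * q) = w ^ 2 * (p * q) := by ring
          rwa [e] at this
        exact not_sq_prod hp hq hne (sq_cancel hw h4)
      · intro h2
        rw [show w * q * p = w * p * q by ring] at h2
        exact not_sq_prime hq (sq_mul_cancel (Nat.mul_pos hw hp.pos) h3 h2)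
    · exact ⟨w, q, dvd_rfl, hw, hq.pos, by ring, h1, h3⟩

/-- Values in a residue class: one of two signs is missing, so the sign is constant. -/
theorem both_or_ap {h : ℕ → ℤ} (f : ℤ → ℤ) (P : ℤ → Prop) {x Z : ℕ}
    (hne : ¬ ∀ s : ℤ, (s = 1 ∨ s = -1) → ∃ n : ℕ, x ≤ n ∧ n ≤ Z ∧ P n ∧ h (f n).natAbs = s)
    (hh : CM h) :
    ∃ ε : ℤ, ∀ n : ℤ, (x : ℤ) ≤ n → n ≤ (Z : ℤ) → P n → f n ≠ 0 → h (f n).natAbs = ε := by
  push Not at hne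
  obtain ⟨s, hs, hn⟩ := hne
  refine ⟨-s, fun n h1 h2 hP h3 => ?_⟩
  lift n to ℕ using (by linarith [Int.natCast_nonneg x])
  have h4 := hn n (by exact_mod_cast h1) (by exact_mod_cast h2) hP
  rcases hh.values _ (Int.natAbs_pos.2 h3) with h5 | h5 <;> rcases hs with h6 | h6
  · exact absurd (h5.trans h6.symm) h4
  · rw [h5, h6]; norm_num
  · rw [h5, h6]
  · exact absurd (h5.trans h6.symm) h4

/-- The theorem on pairs with the values of `g` in a residue class. -/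
theorem pair_ap {e1 e2 e3 : ℤ} (hg : ∀ n, g e1 e2 e3 n ≠ 0) (hCp : 0 < e1 * e2 - e3) {A : ℕ}
    (hA : 1 ≤ A) {p q : ℕ} (hp : p.Prime) (hq : q.Prime) (hne : p ≠ q) {w : ℕ} (hw1 : 1 ≤ w)
    (hAw : A ∣ w) (hw0 : w0 e1 e2 e3 + 2 * |e1| + 1 ≤ (w : ℤ)) :
    ∃ K : ℕ, ∀ h : ℕ → ℤ, CM h → h p = -1 → ∀ x : ℕ, 1 ≤ x →
      (∀ s : ℤ, (s = 1 ∨ s = -1) → ∃ n : ℕ, x ≤ n ∧ n ≤ K * x ^ 4 ∧ (A : ℤ) ∣ n - e1 ∧
        h (g e1 e2 e3 n).natAbs = s) ∨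
      (∀ s : ℤ, (s = 1 ∨ s = -1) → ∃ n : ℕ, x ≤ n ∧ n ≤ K * x ^ 4 ∧
        h (F e1 e2 e3 ((p * q * w : ℕ) : ℤ) n).natAbs = s) := by
  obtain ⟨v, hv⟩ : ∃ v : ℕ, v = p * q * w := ⟨_, rfl⟩
  rw [← hv]
  obtain ⟨w1, t, k0, k1, k2, k3, k4, k5⟩ := choose_w' hp hq hne hw1
  have hv1 : v = w1 * p * t := by rw [hv, k3]
  have hvpos : 1 ≤ v := by
    rw [hv1]; exact Nat.mul_pos (Nat.mul_pos k1 hp.pos) k2
  have hvZ : (1 : ℤ) ≤ v := by exact_mod_cast hvpos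
  have hC0 : e1 * e2 - e3 ≠ 0 := hCp.ne'
  have hww : (w : ℤ) ≤ (w1 : ℤ) := by exact_mod_cast Nat.le_of_dvd k1 k0
  have habs := abs_nonneg e1
  have hw1Z : w0 e1 e2 e3 ≤ (w1 : ℤ) := by linarith
  have hpt : 1 ≤ p * t := Nat.mul_pos hp.pos k2
  have A1 : p * t ≤ v := by
    rw [hv1, mul_assoc]; exact Nat.le_mul_of_pos_left _ k1
  have A2 : t ≤ v := by
    rw [hv1]; exact Nat.le_mul_of_pos_left _ (Nat.mul_pos k1 hp.pos)
  have sqZ : ∀ a b : ℕ, 1 ≤ a → ¬ IsSquare b → ¬ IsSquare ((a ^ 2 * b : ℕ) : ℤ) := by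
    intro a b ha hb hs
    rw [Int.isSquare_natCast_iff] at hs
    exact hb (sq_cancel ha hs)
  have hm0 : ∀ W : ℤ, (w1 : ℤ) ≤ W → 0 < 2 * e1 + (e1 * e2 - e3) * W := by
    intro W hW
    have h0 := w0_pos e1 e2 e3
    have h1 : 1 * W ≤ (e1 * e2 - e3) * W :=
      mul_le_mul_of_nonneg_right hCp (by linarith)
    have h2 := neg_abs_le e1
    linarith
  have hAw1 : (A : ℤ) ∣ (w1 : ℤ) := by exact_mod_cast hAw.trans k0
  obtain ⟨K1, hK1, c1⟩ := core_ap (A := (A : ℤ)) (v := (v : ℤ)) (ν := ((p * t : ℕ) : ℤ))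
    (w := (w1 : ℤ)) hg hvZ
    (by exact_mod_cast hpt) (by rw [hv1]; push_cast; ring) hAw1 hCp (hm0 _ le_rfl)
    (kappa_neg hC0 hvZ (by exact_mod_cast hpt) (by exact_mod_cast A1) hw1Z)
    (by
      have := sqZ (p * t) w1 hpt k4
      have e : ((v : ℤ) * ((p * t : ℕ) : ℤ)) = (((p * t) ^ 2 * w1 : ℕ) : ℤ) := by
        rw [hv1]; push_cast; ring
      rwa [e])
  have hw1p : (w1 : ℤ) ≤ ((w1 * p : ℕ) : ℤ) := by
    exact_mod_cast Nat.le_mul_of_pos_right _ hp.pos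
  obtain ⟨K2, hK2, c2⟩ := core_ap (A := (A : ℤ)) (v := (v : ℤ)) (ν := (t : ℤ))
    (w := ((w1 * p : ℕ) : ℤ)) hg hvZ
    (by exact_mod_cast k2) (by rw [hv1]; push_cast; ring)
    (by push_cast; exact hAw1.mul_right _) hCp (hm0 _ hw1p)
    (kappa_neg hC0 hvZ (by exact_mod_cast k2) (by exact_mod_cast A2) (hw1Z.trans hw1p))
    (by
      have := sqZ t (w1 * p) k2 k5
      have e : ((v : ℤ) * (t : ℤ)) = ((t ^ 2 * (w1 * p) : ℕ) : ℤ) := by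
        rw [hv1]; push_cast; ring
      rwa [e])
  obtain ⟨K, hK⟩ : ∃ K : ℕ, K1 ≤ (K : ℤ) ∧ K2 ≤ (K : ℤ) := by
    refine ⟨(max K1 K2).toNat, ?_, ?_⟩
    · exact (le_max_left _ _).trans (Int.self_le_toNat _)
    · exact (le_max_right _ _).trans (Int.self_le_toNat _)
  refine ⟨K, fun h hh hhp x hx => ?_⟩
  by_contra hcon
  rw [not_or] at hcon
  obtain ⟨ε, hε⟩ := both_or_ap (g e1 e2 e3) (fun n => (A : ℤ) ∣ n - e1) hcon.1 hh
  obtain ⟨φ, hφ⟩ := both_or (F e1 e2 e3 v) hcon.2 hh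
  have hx1 : (1 : ℤ) ≤ x := by exact_mod_cast hx
  have hx4 : (0 : ℤ) ≤ (x : ℤ) ^ 4 := by positivity
  have d1 := c1 h hh x ((K * x ^ 4 : ℕ) : ℤ) hx1
    (by push_cast; exact mul_le_mul_of_nonneg_right hK.1 hx4) ε φ
    (fun n h1 h2 h3 => hε n h1 h2 h3 (hg n)) hφ
  have d2 := c2 h hh x ((K * x ^ 4 : ℕ) : ℤ) hx1
    (by push_cast; exact mul_le_mul_of_nonneg_right hK.2 hx4) ε φ
    (fun n h1 h2 h3 => hε n h1 h2 h3 (hg n)) hφ
  rw [← d2] at d1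
  have v0 : (v : ℤ) ≠ 0 := by linarith
  have p0 : (p : ℤ) ≠ 0 := by exact_mod_cast hp.ne_zero
  have t0 : (t : ℤ) ≠ 0 := by
    have : (1 : ℤ) ≤ t := by exact_mod_cast k2
    linarith
  have e : ((v : ℤ) * ((p * t : ℕ) : ℤ)) = (v * t) * p := by push_cast; ring
  rw [e, hmul hh (mul_ne_zero v0 t0) p0, Int.natAbs_natCast, hhp] at d1
  have s1 := hsq hh (mul_ne_zero v0 t0)
  have : h ((v : ℤ) * t).natAbs = 0 := by linarith
  rw [this] at s1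
  norm_num at s1

end Pool.Agent.Lib_helper11.CUB2
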