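import Mathlib
import Pool.Agent.Lib_helper11.CUB.Explicit
import Pool.Agent.Lib_helper74.CUS.Final

/-!
One of `f_t` and `f_{v t^2}` has both signs, without a dilation of `t`.
-/

namespace Pool.Agent.Lib_helper11.CUB

open Polynomial

variable {K : Type*} [Field K] [NumberField K]

/-- A monic cubic polynomial with a root outside of `ℚ` is a minimal polynomial. -/
theorem minpoly_eq_cubic (h3 : Module.finrank ℚ K = 3) {u : K}
    (hu : u ∉ (⊥ : IntermediateField ℚ K)) {f : ℤ[X]} (hm : f.Monic) (hd : f.natDegree = 3)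
    (hr : aeval u f = 0) : minpoly ℤ u = f := by
  have hint : IsIntegral ℤ u := ⟨f, hm, hr⟩
  have hdeg : (minpoly ℤ u).natDegree = 3 := by
    have e1 := minpoly.isIntegrallyClosed_eq_field_fractions' ℚ hint
    have e2 := deg_three h3 hu
    rw [e1, (minpoly.monic hint).natDegree_map] at e2
    exact e2
  have hdvd : minpoly ℤ u ∣ f := minpoly.isIntegrallyClosed_dvd hint hr
  exact (eq_of_monic_of_dvd_of_natDegree_le (minpoly.monic hint) hm hdvd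
    (by rw [hd, hdeg])).symm

/-- The polynomial with the roots `v w_i^2`. -/
noncomputable def sqp (e1 e2 e3 v : ℤ) : ℤ[X] :=
  X ^ 3 - C (v * (e1 ^ 2 - 2 * e2)) * X ^ 2 + C (v ^ 2 * (e2 ^ 2 - 2 * e1 * e3)) * X -
    C (v ^ 3 * e3 ^ 2)

theorem sqp_natDegree (e1 e2 e3 v : ℤ) : (sqp e1 e2 e3 v).natDegree = 3 := by
  unfold sqp; compute_degree!

theorem sqp_monic (e1 e2 e3 v : ℤ) : (sqp e1 e2 e3 v).Monic := by
  unfold sqp; monicity!

theorem sqp_root {e1 e2 e3 : ℤ} {t : K} (ht : t ^ 3 - e1 * t ^ 2 + e2 * t - e3 = 0) (v : ℤ) :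
    aeval ((v : K) * t ^ 2) (sqp e1 e2 e3 v) = 0 := by
  unfold sqp
  simp only [map_sub, map_add, map_mul, map_pow, aeval_X, eq_intCast, map_intCast, map_ofNat]
  linear_combination ((v : K) ^ 3 * (t ^ 3 + e1 * t ^ 2 + e2 * t + e3)) * ht

theorem sq_not_mem' (h3 : Module.finrank ℚ K = 3) {t : K} (ht : t ∉ (⊥ : IntermediateField ℚ K)) :
    t ^ 2 ∉ (⊥ : IntermediateField ℚ K) := by
  intro hm
  obtain ⟨r, hr⟩ := mem_bot_iff.1 hm
  have := indep h3 ht (u := 1) (v := 0) (w := -r) (by push_cast; rw [hr]; ring)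
  exact one_ne_zero this.1

/-- **No dilation.** One of the minimal polynomials of `t` and of `v t^2` has both signs. -/
theorem undilated (h3 : Module.finrank ℚ K = 3) {t : K} (hint : IsIntegral ℤ t)
    (ht : t ∉ (⊥ : IntermediateField ℚ K)) {p : ℕ} (hp : p.Prime) :
    ∃ m : ℕ, 1 ≤ m ∧ ∀ v : ℕ, 1 ≤ v → m ∣ v → ∃ C : ℕ, ∀ h : ℕ → ℤ, CM h → h p = -1 →
      ∀ x : ℕ, 1 ≤ x →
        (∀ s : ℤ, (s = 1 ∨ s = -1) → ∃ n : ℕ, x ≤ n ∧ n ≤ C * x ^ 4 ∧
          h ((minpoly ℤ t).eval (n : ℤ)).natAbs = s) ∨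
        (∀ s : ℤ, (s = 1 ∨ s = -1) → ∃ n : ℕ, x ≤ n ∧ n ≤ C * x ^ 4 ∧
          h ((minpoly ℤ ((v : K) * t ^ 2)).eval (n : ℤ)).natAbs = s) := by
  obtain ⟨q, hq, hpq⟩ := exists_other_prime p
  obtain ⟨f, hf⟩ : ∃ f : ℤ[X], f = minpoly ℤ t := ⟨_, rfl⟩
  have hdeg : f.natDegree = 3 := by
    have e1 := minpoly.isIntegrallyClosed_eq_field_fractions' ℚ hint
    have e2 := deg_three h3 ht
    rw [e1, (minpoly.monic hint).natDegree_map] at e2
    rw [hf]; exact e2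
  have hmon : f.Monic := by rw [hf]; exact minpoly.monic hint
  obtain ⟨e1, he1⟩ : ∃ e1 : ℤ, e1 = -f.coeff 2 := ⟨_, rfl⟩
  obtain ⟨e2, he2⟩ : ∃ e2 : ℤ, e2 = f.coeff 1 := ⟨_, rfl⟩
  obtain ⟨e3, he3⟩ : ∃ e3 : ℤ, e3 = -f.coeff 0 := ⟨_, rfl⟩
  have hform : f = X ^ 3 - C e1 * X ^ 2 + C e2 * X - C e3 := by
    conv_lhs => rw [f.as_sum_range_C_mul_X_pow, hdeg]
    have h4 : f.coeff 3 = 1 := by
      rw [← hdeg]; exact hmon
    rw [Finset.sum_range_succ, Finset.sum_range_succ, Finset.sum_range_succ,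
      Finset.sum_range_one, h4, he1, he2, he3]
    simp only [map_neg, map_one]
    ring
  have heval : ∀ n : ℤ, f.eval n = Pool.Agent.Lib_helper74.CUS.g e1 e2 e3 n := by
    intro n
    rw [hform]
    simp [Pool.Agent.Lib_helper74.CUS.g]
  have hroot : t ^ 3 - e1 * t ^ 2 + e2 * t - e3 = 0 := by
    have : aeval t f = 0 := by rw [hf]; exact minpoly.aeval ℤ t
    rw [hform] at this
    simpa only [map_sub, map_add, map_mul, map_pow, aeval_X, eq_intCast, map_intCast] using this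
  have hg : ∀ n : ℤ, Pool.Agent.Lib_helper74.CUS.g e1 e2 e3 n ≠ 0 := by
    intro n h0
    have e := norm_sub_int h3 ht hint n
    rw [← hf, heval, h0, Int.cast_zero] at e
    exact norm_ne (sub_ne_zero_of ht (n : ℚ)) e
  obtain ⟨w, hw⟩ : ∃ w : ℕ, Pool.Agent.Lib_helper74.CUS.w0 e1 e2 e3 ≤ (w : ℤ) :=
    ⟨_, Int.self_le_toNat _⟩
  refine ⟨p * q * (w + 1), Nat.mul_pos (Nat.mul_pos hp.pos hq.pos) (Nat.succ_pos _),
    fun v hv hmv => ?_⟩
  have hdiv : p * q ∣ v := (Dvd.intro _ rfl).trans hmv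
  have hle : p * q * Pool.Agent.Lib_helper74.CUS.w0 e1 e2 e3 ≤ (v : ℤ) := by
    have h5 : p * q * (w + 1) ≤ v := Nat.le_of_dvd hv hmv
    have h6 : ((p * q * (w + 1) : ℕ) : ℤ) ≤ v := by exact_mod_cast h5
    push_cast at h6
    have h7 : (0 : ℤ) ≤ (p : ℤ) * q := by positivity
    nlinarith [mul_le_mul_of_nonneg_left hw h7]
  obtain ⟨C, hC⟩ := Pool.Agent.Lib_helper74.CUS.pair_undilated hg hp hq hpq hdiv hle
  have hmin : minpoly ℤ ((v : K) * t ^ 2) = sqp e1 e2 e3 v := by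
    have hvK : (v : K) ≠ 0 := by exact_mod_cast (by omega : v ≠ 0)
    refine minpoly_eq_cubic h3 (nsmul_not_mem (sq_not_mem' h3 ht) hv) (sqp_monic _ _ _ _)
      (sqp_natDegree _ _ _ _) ?_
    have := sqp_root hroot (v : ℤ)
    rwa [Int.cast_natCast] at this
  have hev2 : ∀ n : ℤ, (minpoly ℤ ((v : K) * t ^ 2)).eval n =
      Pool.Agent.Lib_helper74.CUS.F e1 e2 e3 v n := by
    intro n
    rw [hmin]
    simp [sqp, Pool.Agent.Lib_helper74.CUS.F]
  refine ⟨C, fun h hh hhp x hx => ?_⟩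
  rcases hC h ⟨hh.values, hh.mul⟩ hhp x hx with h8 | h8
  · left
    intro s hs
    obtain ⟨n, a1, a2, a3⟩ := h8 s hs
    exact ⟨n, a1, a2, by rw [← hf, heval]; exact a3⟩
  · right
    intro s hs
    obtain ⟨n, a1, a2, a3⟩ := h8 s hs
    exact ⟨n, a1, a2, by rw [hev2]; exact a3⟩

end Pool.Agent.Lib_helper11.CUB
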