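import Mathlib
import Pool.Agent.Lib_helper11.CUB2.Und
import Pool.Agent.Lib_helper11.CUB2.AP

/-!
Every irreducible cubic polynomial in `ℤ[X]`, monic or not.
-/

namespace Pool.Agent.Lib_helper11.CUB2

open Pool.Agent.Lib_helper11.CUB Polynomial
open Pool.Agent.Lib_helper74.CUS (w0 w0_pos hmul hsquare)

variable {K : Type*} [Field K] [NumberField K]

/-- A root of an irreducible cubic polynomial is irrational. -/
theorem root_not_mem {f : ℤ[X]} (hf : Irreducible f) (hd : f.natDegree = 3) {t : K}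
    (ht : aeval t f = 0) : t ∉ (⊥ : IntermediateField ℚ K) := by
  have hprim : f.IsPrimitive := hf.isPrimitive (by omega)
  have hirr : Irreducible (f.map (Int.castRingHom ℚ)) :=
    (IsPrimitive.Int.irreducible_iff_irreducible_map_cast hprim).1 hf
  have hroot : aeval t (f.map (Int.castRingHom ℚ)) = 0 := by
    have : aeval t (f.map (algebraMap ℤ ℚ)) = aeval t f := aeval_map_algebraMap ℚ t f
    rw [← ht, ← this]; rfl
  have hmin := minpoly.eq_of_irreducible hirr hroot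
  intro hm
  obtain ⟨r, hr⟩ := IntermediateField.mem_bot.1 hm
  have h1 : (minpoly ℚ t).natDegree = 1 := by
    rw [← hr, minpoly.eq_X_sub_C, natDegree_X_sub_C]
  have h2 : (f.map (Int.castRingHom ℚ)).natDegree = 3 := by
    rw [natDegree_map_eq_of_injective Int.cast_injective, hd]
  have h3 : (f.map (Int.castRingHom ℚ)).leadingCoeff ≠ 0 := leadingCoeff_ne_zero.2 hirr.ne_zero
  rw [← hmin, natDegree_mul_C (inv_ne_zero h3), h2] at h1
  omega

theorem exists_pos {a b c d : ℤ} (ha : 0 < a) :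
    ∃ n : ℤ, 0 < a * n ^ 3 + b * n ^ 2 + c * n + d := by
  refine ⟨|b| + |c| + |d| + 1, ?_⟩
  obtain ⟨N, hN⟩ : ∃ N : ℤ, N = |b| + |c| + |d| + 1 := ⟨_, rfl⟩
  rw [← hN]
  have hb := abs_nonneg b
  have hc := abs_nonneg c
  have hd := abs_nonneg d
  have hN1 : 1 ≤ N := by linarith
  have hN2 : N ≤ N ^ 2 := by nlinarith
  have hN3 : 1 ≤ N ^ 2 := by linarith
  have k1 : -(|b| * N ^ 2) ≤ b * N ^ 2 := by
    have := mul_le_mul_of_nonneg_right (neg_abs_le b) (sq_nonneg N); linarith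
  have k2 : -(|c| * N ^ 2) ≤ c * N := by
    have h1 := mul_le_mul_of_nonneg_right (neg_abs_le c) (show 0 ≤ N by linarith)
    have h2 := mul_le_mul_of_nonneg_left hN2 hc
    linarith
  have k3 : -(|d| * N ^ 2) ≤ d := by
    have h1 := neg_abs_le d
    have h2 := mul_le_mul_of_nonneg_left hN3 hd
    linarith
  have k4 : N ^ 3 ≤ a * N ^ 3 := by
    have : 0 ≤ N ^ 3 := by positivity
    nlinarith
  have k5 : N ^ 3 = (|b| + |c| + |d|) * N ^ 2 + N ^ 2 := by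
    have : N ^ 3 = N * N ^ 2 := by ring
    rw [this]; nth_rewrite 1 [hN]; ring
  nlinarith

/-- Irreducible cubic polynomials with positive leading coefficient. -/
theorem any_pos (h3 : Module.finrank ℚ K = 3) {f : ℤ[X]} (hf : Irreducible f)
    (hd3 : f.natDegree = 3) (ha : 0 < f.leadingCoeff) {t : K} (ht : aeval t f = 0) :
    ∃ r : ℚ, ∀ p : ℕ, p.Prime →
    ∃ m : ℕ, 1 ≤ m ∧ ∀ v : ℕ, 1 ≤ v → m ∣ v → ∃ C : ℕ, ∀ h : ℕ → ℤ, CM h → h p = -1 →
      ∀ x : ℕ, 1 ≤ x →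
        (∀ s : ℤ, (s = 1 ∨ s = -1) → ∃ n : ℕ, x ≤ n ∧ n ≤ C * x ^ 4 ∧
          h (f.eval (n : ℤ)).natAbs = s) ∨
        (∀ s : ℤ, (s = 1 ∨ s = -1) → ∃ n : ℕ, x ≤ n ∧ n ≤ C * x ^ 4 ∧
          h ((minpoly ℤ ((v : K) * (t - r) ^ 2)).eval (n : ℤ)).natAbs = s) := by
  have htb := root_not_mem hf hd3 ht
  obtain ⟨a, hae⟩ : ∃ a : ℤ, a = f.coeff 3 := ⟨_, rfl⟩
  obtain ⟨b, hbe⟩ : ∃ b : ℤ, b = f.coeff 2 := ⟨_, rfl⟩
  obtain ⟨c, hce⟩ : ∃ c : ℤ, c = f.coeff 1 := ⟨_, rfl⟩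
  obtain ⟨d, hde⟩ : ∃ d : ℤ, d = f.coeff 0 := ⟨_, rfl⟩
  have ha' : 0 < a := by
    rw [hae, ← hd3]; exact ha
  have hform : f = C a * X ^ 3 + C b * X ^ 2 + C c * X + C d := by
    conv_lhs => rw [f.as_sum_range_C_mul_X_pow, hd3]
    rw [Finset.sum_range_succ, Finset.sum_range_succ, Finset.sum_range_succ,
      Finset.sum_range_one, hae, hbe, hce, hde]
    ring
  have heval : ∀ n : ℤ, f.eval n = a * n ^ 3 + b * n ^ 2 + c * n + d := by
    intro n; rw [hform]; simp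
  have hroot : (a : K) * t ^ 3 + b * t ^ 2 + c * t + d = 0 := by
    rw [hform] at ht
    simpa only [map_add, map_mul, map_pow, aeval_X, eq_intCast, map_intCast] using ht
  obtain ⟨n0, hn0⟩ := exists_pos (b := b) (c := c) (d := d) ha'
  obtain ⟨β, hβ⟩ : ∃ β : ℤ, β = b + a * n0 := ⟨_, rfl⟩
  obtain ⟨e1, he1⟩ : ∃ e : ℤ, e = 3 * β - 2 * b := ⟨_, rfl⟩
  obtain ⟨e2, he2⟩ : ∃ e : ℤ, e = 3 * β ^ 2 - 4 * b * β + 4 * a * c := ⟨_, rfl⟩
  obtain ⟨e3, he3⟩ : ∃ e : ℤ, e = β ^ 3 - 2 * b * β ^ 2 + 4 * a * c * β - 8 * a ^ 2 * d :=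
    ⟨_, rfl⟩
  have hC : e1 * e2 - e3 = 8 * a ^ 2 * (a * n0 ^ 3 + b * n0 ^ 2 + c * n0 + d) := by
    rw [he1, he2, he3, hβ]; ring
  have hCp : 0 < e1 * e2 - e3 := by rw [hC]; positivity
  have hgf : ∀ n : ℤ, Pool.Agent.Lib_helper74.CUS.g e1 e2 e3 (2 * a * n + β) = 8 * a ^ 2 * f.eval n := by
    intro n; rw [heval, he1, he2, he3]; unfold Pool.Agent.Lib_helper74.CUS.g; ring
  obtain ⟨T, hT⟩ : ∃ T : K, T = 2 * a * t + β := ⟨_, rfl⟩
  have ha0 : (a : K) ≠ 0 := by exact_mod_cast ha'.ne'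
  have hTroot : T ^ 3 - e1 * T ^ 2 + e2 * T - e3 = 0 := by
    rw [hT, he1, he2, he3]; push_cast
    linear_combination (8 * (a : K) ^ 2) * hroot
  have hTb : T ∉ (⊥ : IntermediateField ℚ K) := by
    intro hm
    obtain ⟨r, hr⟩ := mem_bot_iff.1 hm
    apply htb
    refine mem_bot_iff.2 ⟨(r - β) / (2 * a), ?_⟩
    push_cast
    rw [hr, hT]; field_simp; ring
  have hTm : minpoly ℤ T = X ^ 3 - C e1 * X ^ 2 + C e2 * X - C e3 := by
    refine minpoly_eq_cubic h3 hTb (by monicity!) (by compute_degree!) ?_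
    simp only [map_sub, map_add, map_mul, map_pow, aeval_X, eq_intCast, map_intCast]
    exact hTroot
  have hTint : IsIntegral ℤ T := by
    refine ⟨X ^ 3 - C e1 * X ^ 2 + C e2 * X - C e3, by monicity!, ?_⟩
    change aeval T (X ^ 3 - C e1 * X ^ 2 + C e2 * X - C e3) = 0
    simp only [map_sub, map_add, map_mul, map_pow, aeval_X, eq_intCast, map_intCast]
    exact hTroot
  have hg : ∀ n : ℤ, Pool.Agent.Lib_helper74.CUS.g e1 e2 e3 n ≠ 0 := by
    intro n h0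
    have e := norm_sub_int h3 hTb hTint n
    have e4 : (minpoly ℤ T).eval n = Pool.Agent.Lib_helper74.CUS.g e1 e2 e3 n := by
      rw [hTm]; simp [Pool.Agent.Lib_helper74.CUS.g]
    rw [e4, h0, Int.cast_zero] at e
    exact norm_ne (sub_ne_zero_of hTb (n : ℚ)) e
  refine ⟨-(β : ℚ) / (2 * a), fun p hp => ?_⟩
  obtain ⟨q, hq, hpq⟩ := exists_other_prime p
  obtain ⟨W, hW⟩ : ∃ W : ℕ, w0 e1 e2 e3 + 2 * |e1| + 1 ≤ (W : ℤ) := ⟨_, Int.self_le_toNat _⟩
  have hW1 : 1 ≤ W := by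
    have h0 := w0_pos e1 e2 e3
    have h1 := abs_nonneg e1
    have : (1 : ℤ) ≤ (W : ℤ) := by linarith
    exact_mod_cast this
  obtain ⟨A0, hA0⟩ : ∃ A : ℕ, (A : ℤ) = a := ⟨a.toNat, Int.toNat_of_nonneg ha'.le⟩
  have hA01 : 1 ≤ A0 := by
    have : (1 : ℤ) ≤ (A0 : ℤ) := by rw [hA0]; exact ha'
    exact_mod_cast this
  have hm1 : 1 ≤ 4 * A0 ^ 2 * (p * q * (2 * A0 * W)) :=
    Nat.mul_pos (Nat.mul_pos (by norm_num) (Nat.pow_pos hA01))
      (Nat.mul_pos (Nat.mul_pos hp.pos hq.pos) (Nat.mul_pos (by omega) hW1))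
  refine ⟨4 * A0 ^ 2 * (p * q * (2 * A0 * W)), hm1, fun v hv hmv => ?_⟩
  obtain ⟨j, hj⟩ := hmv
  have hj1 : 1 ≤ j := by
    rcases Nat.eq_zero_or_pos j with h0 | h0
    · rw [h0, mul_zero] at hj; omega
    · exact h0
  obtain ⟨w, hw⟩ : ∃ w : ℕ, w = 2 * A0 * W * j := ⟨_, rfl⟩
  have hw1 : 1 ≤ w := by rw [hw]; exact Nat.mul_pos (Nat.mul_pos (by omega) hW1) hj1
  have hWw : W ≤ w := by
    rw [hw]
    calc W = 1 * W * 1 := by ring
      _ ≤ 2 * A0 * W * j := Nat.mul_le_mul (Nat.mul_le_mul_right _ (by omega)) hj1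
  have hWwZ : (W : ℤ) ≤ (w : ℤ) := by exact_mod_cast hWw
  obtain ⟨K0, hK0⟩ := pair_ap (A := 2 * A0) hg hCp (by omega) hp hq hpq (w := w) hw1
    (by rw [hw, mul_assoc]; exact dvd_mul_right _ _) (hW.trans hWwZ)
  -- the partner
  have hvT : (v : K) * (t - ((-(β : ℚ) / (2 * a) : ℚ) : K)) ^ 2 =
      (((p * q * w : ℕ) : ℤ) : K) * T ^ 2 := by
    have e4 : v = 4 * A0 ^ 2 * (p * q * w) := by rw [hj, hw]; ring
    have e5 : (A0 : K) = a := by rw [← hA0]; push_cast; rfl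
    have e6 : t - ((-(β : ℚ) / (2 * a) : ℚ) : K) = T / (2 * a) := by
      rw [hT]; push_cast; field_simp; ring
    rw [e4, e6]; push_cast; rw [e5]; field_simp; ring
  have hmin : minpoly ℤ ((v : K) * (t - ((-(β : ℚ) / (2 * a) : ℚ) : K)) ^ 2) =
      sqp e1 e2 e3 ((p * q * w : ℕ) : ℤ) := by
    rw [hvT]
    have hpqw : 1 ≤ p * q * w := Nat.mul_pos (Nat.mul_pos hp.pos hq.pos) hw1
    refine minpoly_eq_cubic h3 ?_ (sqp_monic _ _ _ _) (sqp_natDegree _ _ _ _)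
      (sqp_root hTroot _)
    have := nsmul_not_mem (sq_not_mem' h3 hTb) hpqw
    simpa using this
  have hev2 : ∀ n : ℤ, (minpoly ℤ ((v : K) * (t - ((-(β : ℚ) / (2 * a) : ℚ) : K)) ^ 2)).eval n =
      Pool.Agent.Lib_helper74.CUS.F e1 e2 e3 ((p * q * w : ℕ) : ℤ) n := by
    intro n
    rw [hmin]
    simp [sqp, Pool.Agent.Lib_helper74.CUS.F]
  -- the constant
  obtain ⟨L, hL⟩ : ∃ L : ℕ, L = 2 * A0 + β.natAbs := ⟨_, rfl⟩
  have hL1 : 1 ≤ L := by omega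
  refine ⟨K0 * L ^ 4 + β.natAbs, fun h hh hhp x hx => ?_⟩
  have hLx : 1 ≤ L * x := Nat.mul_pos hL1 hx
  have hx4 : 1 ≤ x ^ 4 := Nat.one_le_pow _ _ hx
  have hxL : x ≤ L * x := Nat.le_mul_of_pos_left _ hL1
  rcases hK0 h hh hhp (L * x) hLx with H | H
  · left
    intro s hs
    have h8 : h (8 * a ^ 2).natAbs * h (8 * a ^ 2).natAbs = 1 :=
      Pool.Agent.Lib_helper74.CUS.hsq hh (by positivity)
    have h8v : h (8 * a ^ 2).natAbs = 1 ∨ h (8 * a ^ 2).natAbs = -1 :=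
      hh.values _ (Int.natAbs_pos.2 (by positivity))
    obtain ⟨y, y1, y2, y3, y4⟩ := H (h (8 * a ^ 2).natAbs * s) (by
      rcases h8v with h9 | h9 <;> rcases hs with rfl | rfl <;> rw [h9] <;> norm_num)
    obtain ⟨k, hk⟩ := y3
    -- `y = 2 a n + β`
    have hy : (y : ℤ) = 2 * a * (k + n0) + β := by
      have : (y : ℤ) = ((2 * A0 : ℕ) : ℤ) * k + e1 := by linarith
      rw [this, he1, hβ]; push_cast; rw [hA0]; ring
    have hβ1 := le_abs_self β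
    have hβ2 := neg_abs_le β
    have hβ3 : ((β.natAbs : ℕ) : ℤ) = |β| := Int.natCast_natAbs β
    have hLz : (L : ℤ) = 2 * a + |β| := by rw [hL]; push_cast; rw [hA0]
    have hxZ : (1 : ℤ) ≤ x := by exact_mod_cast hx
    have hyl : ((2 * a + |β|) * x : ℤ) ≤ y := by
      rw [← hLz]; exact_mod_cast y1
    have hn_low : (x : ℤ) ≤ k + n0 := by
      have h5 : 2 * a * (x : ℤ) ≤ 2 * a * (k + n0) := by
        have h6 : |β| * 1 ≤ |β| * x := mul_le_mul_of_nonneg_left hxZ (abs_nonneg β)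
        rw [hy] at hyl
        linarith
      exact le_of_mul_le_mul_left h5 (by linarith)
    obtain ⟨n, hn⟩ := Int.eq_ofNat_of_zero_le (show 0 ≤ k + n0 by linarith)
    refine ⟨n, by rw [hn] at hn_low; exact_mod_cast hn_low, ?_, ?_⟩
    · have h5 : (n : ℤ) ≤ 2 * a * (k + n0) := by
        rw [← hn]
        have : 1 * (k + n0) ≤ 2 * a * (k + n0) :=
          mul_le_mul_of_nonneg_right (by linarith) (by linarith)
        linarith
      have h6 : (n : ℤ) ≤ (y : ℤ) + |β| := by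
        have h7 : 2 * a * (k + n0) = (y : ℤ) - β := by rw [hy]; ring
        linarith
      have h7 : (y : ℤ) ≤ ((K0 * (L * x) ^ 4 : ℕ) : ℤ) := by exact_mod_cast y2
      have h8 : (n : ℤ) ≤ (((K0 * L ^ 4 + β.natAbs) * x ^ 4 : ℕ) : ℤ) := by
        have h9 : |β| * 1 ≤ |β| * (x : ℤ) ^ 4 :=
          mul_le_mul_of_nonneg_left (by exact_mod_cast hx4) (abs_nonneg β)
        push_cast at h7 ⊢
        rw [show ((K0 : ℤ) * (L : ℤ) ^ 4 + |β|) * (x : ℤ) ^ 4 =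
          (K0 : ℤ) * ((L : ℤ) * x) ^ 4 + |β| * (x : ℤ) ^ 4 by ring]
        linarith
      exact_mod_cast h8
    · rw [hy, hgf, hmul hh (by positivity) (by
        intro h0
        have := hgf (k + n0)
        rw [h0, mul_zero] at this
        exact hg _ this)] at y4
      have hnn : (k + n0 : ℤ) = (n : ℤ) := hn
      rw [hnn] at y4
      calc h (f.eval (n : ℤ)).natAbs
          = (h (8 * a ^ 2).natAbs * h (8 * a ^ 2).natAbs) * h (f.eval (n : ℤ)).natAbs := by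
            rw [h8, one_mul]
        _ = h (8 * a ^ 2).natAbs * (h (8 * a ^ 2).natAbs * s) := by rw [mul_assoc, y4]
        _ = s := by rw [← mul_assoc, h8, one_mul]
  · right
    intro s hs
    obtain ⟨n, a1, a2, a3⟩ := H s hs
    refine ⟨n, hxL.trans a1, a2.trans ?_, by rw [hev2]; exact a3⟩
    calc K0 * (L * x) ^ 4 = K0 * L ^ 4 * x ^ 4 := by ring
      _ ≤ (K0 * L ^ 4 + β.natAbs) * x ^ 4 := Nat.mul_le_mul_right _ (Nat.le_add_right _ _)

/-- **Every irreducible cubic polynomial.** One of `f` and the minimal polynomial of `v (t - r)²` has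
both signs, where `f(t) = 0`. -/
theorem any_cubic (h3 : Module.finrank ℚ K = 3) {f : ℤ[X]} (hf : Irreducible f)
    (hd3 : f.natDegree = 3) {t : K} (ht : aeval t f = 0) :
    ∃ r : ℚ, (f.Monic → r = 0) ∧ ∀ p : ℕ, p.Prime →
    ∃ m : ℕ, 1 ≤ m ∧ ∀ v : ℕ, 1 ≤ v → m ∣ v → ∃ C : ℕ, ∀ h : ℕ → ℤ, CM h → h p = -1 →
      ∀ x : ℕ, 1 ≤ x →
        (∀ s : ℤ, (s = 1 ∨ s = -1) → ∃ n : ℕ, x ≤ n ∧ n ≤ C * x ^ 4 ∧
          h (f.eval (n : ℤ)).natAbs = s) ∨
        (∀ s : ℤ, (s = 1 ∨ s = -1) → ∃ n : ℕ, x ≤ n ∧ n ≤ C * x ^ 4 ∧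
          h ((minpoly ℤ ((v : K) * (t - r) ^ 2)).eval (n : ℤ)).natAbs = s) := by
  by_cases hm : f.Monic
  · have hint : IsIntegral ℤ t := ⟨f, hm, ht⟩
    have htb := root_not_mem hf hd3 ht
    have hmin := minpoly_eq_cubic h3 htb hm hd3 ht
    refine ⟨0, fun _ => rfl, fun p hp => ?_⟩
    obtain ⟨m, hm1, H⟩ := undilated h3 hint htb hp
    rw [hmin] at H
    refine ⟨m, hm1, fun v hv hmv => ?_⟩
    obtain ⟨C, hC⟩ := H v hv hmv
    refine ⟨C, fun h hh hhp x hx => ?_⟩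
    have e : (v : K) * (t - ((0 : ℚ) : K)) ^ 2 = (v : K) * t ^ 2 := by
      rw [Rat.cast_zero, sub_zero]
    rw [e]
    exact hC h hh hhp x hx
  · rcases lt_or_gt_of_ne (leadingCoeff_ne_zero.2 hf.ne_zero) with hneg | hpos
    · have h1 : Irreducible (-f) := ((Associated.refl f).neg_left).irreducible_iff.2 hf
      obtain ⟨r, H⟩ := any_pos h3 (f := -f) h1 (by rw [natDegree_neg, hd3])
        (by rw [leadingCoeff_neg]; linarith) (t := t) (by rw [map_neg, ht, neg_zero])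
      refine ⟨r, fun h => absurd h hm, fun p hp => ?_⟩
      obtain ⟨m, hm1, H⟩ := H p hp
      refine ⟨m, hm1, fun v hv hmv => ?_⟩
      obtain ⟨C, hC⟩ := H v hv hmv
      refine ⟨C, fun h hh hhp x hx => ?_⟩
      simpa only [eval_neg, Int.natAbs_neg] using hC h hh hhp x hx
    · obtain ⟨r, H⟩ := any_pos h3 hf hd3 hpos ht
      exact ⟨r, fun h => absurd h hm, H⟩

end Pool.Agent.Lib_helper11.CUB2
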